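import Mathlib

set_option autoImplicit false

open Finset Filter

namespace Pool.Agent.Y451.LI

/-- the logarithm `lg x = 1 + log (1 + x)` -/
noncomputable def lg (x : ℝ) : ℝ := 1 + Real.log (1 + x)

/-- the product `lg(n) · lg(lg(n)) ⋯` of the first `m` iterated logarithms of `n` -/
noncomputable def lgProd (m n : ℕ) : ℝ := ∏ i ∈ Finset.range m, lg^[i + 1] (n : ℝ)

theorem lg_one_le {x : ℝ} (hx : 0 ≤ x) : 1 ≤ lg x := by
  unfold lg
  have := Real.log_nonneg (by linarith : 1 ≤ 1 + x)
  linarith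

theorem lg_mono {x y : ℝ} (hx : 0 ≤ x) (h : x ≤ y) : lg x ≤ lg y := by
  unfold lg
  have := Real.log_le_log (by linarith : 0 < 1 + x) (by linarith : 1 + x ≤ 1 + y)
  linarith

theorem lg_two_mul {x : ℝ} (hx : 0 ≤ x) : lg (2 * x) ≤ 2 * lg x := by
  unfold lg
  have h1 : Real.log (1 + 2 * x) ≤ Real.log (2 * (1 + x)) :=
    Real.log_le_log (by linarith) (by linarith)
  rw [Real.log_mul (by norm_num) (by linarith)] at h1
  have h2 : Real.log 2 ≤ 1 := by
    have := Real.log_le_sub_one_of_pos (by norm_num : (0 : ℝ) < 2)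
    linarith
  have := Real.log_nonneg (by linarith : 1 ≤ 1 + x)
  linarith

theorem lg_sq {x : ℝ} (hx : 0 ≤ x) : lg (x ^ 2) ≤ 2 * lg x := by
  unfold lg
  have h1 : Real.log (1 + x ^ 2) ≤ Real.log ((1 + x) ^ 2) :=
    Real.log_le_log (by positivity) (by nlinarith)
  rw [Real.log_pow] at h1
  push_cast at h1
  linarith

theorem iter_nonneg (i : ℕ) {x : ℝ} (hx : 0 ≤ x) : 0 ≤ lg^[i] x := by
  induction i generalizing x with
  | zero => simpa using hx
  | succ i ih =>
    rw [Function.iterate_succ_apply]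
    exact ih (by linarith [lg_one_le hx])

theorem iter_one_le (i : ℕ) {x : ℝ} (hx : 0 ≤ x) : 1 ≤ lg^[i + 1] x := by
  rw [Function.iterate_succ_apply']
  exact lg_one_le (iter_nonneg i hx)

theorem iter_mono (i : ℕ) {x y : ℝ} (hx : 0 ≤ x) (h : x ≤ y) : lg^[i] x ≤ lg^[i] y := by
  induction i generalizing x y with
  | zero => simpa using h
  | succ i ih =>
    rw [Function.iterate_succ_apply, Function.iterate_succ_apply]
    exact ih (by linarith [lg_one_le hx]) (lg_mono hx h)

theorem iter_sq (i : ℕ) {x : ℝ} (hx : 0 ≤ x) : lg^[i + 1] (x ^ 2) ≤ 2 * lg^[i + 1] x := by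
  induction i with
  | zero => simpa using lg_sq hx
  | succ i ih =>
    rw [Function.iterate_succ_apply', Function.iterate_succ_apply' lg (i + 1) x]
    refine (lg_mono (iter_nonneg _ (by positivity)) ih).trans (lg_two_mul (iter_nonneg _ hx))

theorem lgProd_mono (m : ℕ) : Monotone fun n => lgProd m n := by
  intro n k hnk
  unfold lgProd
  refine Finset.prod_le_prod (fun i _ => iter_nonneg _ (Nat.cast_nonneg _)) fun i _ => ?_
  exact iter_mono _ (Nat.cast_nonneg _) (by exact_mod_cast hnk)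

theorem lgProd_pos (m n : ℕ) : 0 < lgProd m n := by
  unfold lgProd
  exact Finset.prod_pos fun i _ => lt_of_lt_of_le one_pos (iter_one_le i (Nat.cast_nonneg _))

theorem one_le_lgProd (m n : ℕ) : 1 ≤ lgProd m n := by
  unfold lgProd
  induction m with
  | zero => simp
  | succ m ih =>
    rw [Finset.prod_range_succ]
    exact one_le_mul_of_one_le_of_one_le ih (iter_one_le m (Nat.cast_nonneg _))

theorem lg_le_lgProd (m n : ℕ) : lg n ≤ lgProd (m + 1) n := by
  unfold lgProd
  induction m with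
  | zero => simp
  | succ m ih =>
    rw [Finset.prod_range_succ]
    refine ih.trans (le_mul_of_one_le_right ?_ (iter_one_le (m + 1) (Nat.cast_nonneg _)))
    exact (lgProd_pos (m + 1) n).le

theorem lgProd_tendsto (m : ℕ) : Tendsto (fun n => lgProd (m + 1) n) atTop atTop := by
  refine tendsto_atTop_mono (fun n => lg_le_lgProd m n) ?_
  unfold lg
  refine tendsto_atTop_add_const_left _ _ (Real.tendsto_log_atTop.comp ?_)
  exact tendsto_atTop_add_const_left _ _ tendsto_natCast_atTop_atTop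

theorem lgProd_sq (m n : ℕ) : lgProd m (n ^ 2) ≤ 2 ^ m * lgProd m n := by
  unfold lgProd
  induction m with
  | zero => simp
  | succ m ih =>
    rw [Finset.prod_range_succ, Finset.prod_range_succ, pow_succ]
    have h1 := iter_sq m (x := (n : ℝ)) (Nat.cast_nonneg _)
    have h2 : lg^[m + 1] ((n ^ 2 : ℕ) : ℝ) ≤ 2 * lg^[m + 1] (n : ℝ) := by push_cast; exact h1
    calc _ ≤ (2 ^ m * ∏ i ∈ Finset.range m, lg^[i + 1] (n : ℝ)) * (2 * lg^[m + 1] (n : ℝ)) := by
          refine mul_le_mul ih h2 (iter_nonneg _ (Nat.cast_nonneg _)) ?_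
          exact mul_nonneg (by positivity) (lgProd_pos m n).le
      _ = _ := by ring

theorem lg_pow_le (k : ℕ) : lg ((2 ^ k : ℕ) : ℝ) ≤ ((k + 2 : ℕ) : ℝ) := by
  unfold lg
  have h1 : Real.log (1 + ((2 ^ k : ℕ) : ℝ)) ≤ Real.log (2 ^ (k + 1)) := by
    apply Real.log_le_log (by positivity)
    push_cast
    have : (1 : ℝ) ≤ 2 ^ k := one_le_pow₀ (by norm_num)
    rw [pow_succ]; linarith
  rw [Real.log_pow] at h1
  have h2 : Real.log 2 ≤ 1 := by
    have := Real.log_le_sub_one_of_pos (by norm_num : (0 : ℝ) < 2)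
    linarith
  have h3 : ((k + 1 : ℕ) : ℝ) * Real.log 2 ≤ ((k + 1 : ℕ) : ℝ) * 1 :=
    mul_le_mul_of_nonneg_left h2 (Nat.cast_nonneg _)
  push_cast at h1 h3 ⊢
  linarith

theorem lgProd_pow_le (m k : ℕ) :
    lgProd (m + 1) (2 ^ k) ≤ ((k + 2 : ℕ) : ℝ) * lgProd m (k + 2) := by
  have h1 : lgProd (m + 1) (2 ^ k) ≤ ∏ i ∈ Finset.range (m + 1), lg^[i] ((k + 2 : ℕ) : ℝ) := by
    unfold lgProd
    refine Finset.prod_le_prod (fun i _ => iter_nonneg _ (Nat.cast_nonneg _)) fun i _ => ?_
    rw [Function.iterate_succ_apply]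
    exact iter_mono _ (by linarith [lg_one_le (Nat.cast_nonneg (α := ℝ) (2 ^ k))]) (lg_pow_le k)
  refine h1.trans (le_of_eq ?_)
  rw [Finset.prod_range_succ', mul_comm]
  rfl

theorem lgProd_div (m : ℕ) : ¬ Summable fun n : ℕ => 1 / ((n : ℝ) * lgProd m n) := by
  induction m with
  | zero =>
    intro hs
    apply Real.not_summable_one_div_natCast
    refine hs.congr fun n => ?_
    simp [lgProd]
  | succ m ih =>
    intro hs
    have h1 := summable_condensed_iff_of_nonneg
      (f := fun n : ℕ => 1 / ((n : ℝ) * lgProd (m + 1) n))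
      (fun n => by have := lgProd_pos (m + 1) n; positivity) (fun i n hm hmn => by
        have h2 : (0 : ℝ) < i := by exact_mod_cast hm
        have h3 : (i : ℝ) ≤ n := by exact_mod_cast hmn
        exact one_div_le_one_div_of_le (mul_pos h2 (lgProd_pos (m + 1) i))
          (mul_le_mul h3 (lgProd_mono (m + 1) hmn) (lgProd_pos (m + 1) i).le (by linarith)))
    rw [← h1] at hs
    apply ih
    rw [← summable_nat_add_iff 2]
    refine Summable.of_nonneg_of_le (fun k => ?_) (fun k => ?_) hs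
    · have := lgProd_pos m (k + 2)
      positivity
    · have h2 := lgProd_pow_le m k
      have h3 := lgProd_pos (m + 1) (2 ^ k)
      have e : (2 : ℝ) ^ k * (1 / (((2 ^ k : ℕ) : ℝ) * lgProd (m + 1) (2 ^ k))) =
          1 / lgProd (m + 1) (2 ^ k) := by
        push_cast
        field_simp
      rw [e]
      exact one_div_le_one_div_of_le h3 h2

theorem log_le_lgProd_one (n : ℕ) : Real.log n ≤ lgProd (0 + 1) n := by
  refine le_trans ?_ (lg_le_lgProd 0 n)
  unfold lg
  rcases Nat.eq_zero_or_pos n with h | h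
  · subst h; simp
  · have h1 : (0 : ℝ) < n := by exact_mod_cast h
    have := Real.log_le_log h1 (by linarith : (n : ℝ) ≤ 1 + n)
    linarith

end Pool.Agent.Y451.LI
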