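import Mathlib
import Pool.Agent.TH994.LogIso.NoPerc

set_option autoImplicit false
set_option linter.unusedSectionVars false

open Finset MeasureTheory Filter
open scoped ENNReal NNReal

namespace Pool.Agent.Y451.LI

open Pool.Agent.TH994.LogIso

/-- the lengths of the windows: the product of the first `k` ratios -/
def Mm (r : ℕ → ℕ) (k : ℕ) : ℕ := ∏ i ∈ Finset.range k, r i

theorem Mm_zero (r : ℕ → ℕ) : Mm r 0 = 1 := by simp [Mm]

theorem Mm_succ (r : ℕ → ℕ) (k : ℕ) : Mm r (k + 1) = r k * Mm r k := by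
  unfold Mm; rw [Finset.prod_range_succ, mul_comm]

theorem Mm_pos {r : ℕ → ℕ} (hr : ∀ k, 1 ≤ r k) (k : ℕ) : 1 ≤ Mm r k := by
  unfold Mm
  exact Nat.one_le_iff_ne_zero.2 (Finset.prod_ne_zero_iff.2 fun i _ => by have := hr i; omega)

/-- the weights of the generators -/
noncomputable def be (r : ℕ → ℕ) (i : ℕ) : ℝ := 1 / (2 ^ i * (Mm r (i + 1) : ℝ))

theorem be_pos {r : ℕ → ℕ} (hr : ∀ k, 1 ≤ r k) (i : ℕ) : 0 < be r i := by
  unfold be
  have := Mm_pos hr (i + 1)
  have : (0 : ℝ) < Mm r (i + 1) := by exact_mod_cast this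
  positivity

theorem be_half {r : ℕ → ℕ} (hr : ∀ k, 1 ≤ r k) (i : ℕ) : be r (i + 1) ≤ be r i / 2 := by
  unfold be
  rw [div_div]
  have h0 : (1 : ℝ) ≤ Mm r (i + 1) := by exact_mod_cast Mm_pos hr (i + 1)
  apply one_div_le_one_div_of_le (by positivity)
  have h1 : (Mm r (i + 1) : ℝ) ≤ Mm r (i + 1 + 1) := by
    rw [Mm_succ r (i + 1)]
    have := hr (i + 1)
    exact_mod_cast Nat.le_mul_of_pos_left _ (by omega)
  have h2 : (2 : ℝ) ^ (i + 1) = 2 ^ i * 2 := pow_succ _ _
  rw [h2]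
  have h3 : (0 : ℝ) < 2 ^ i := by positivity
  nlinarith

/-- the lower bounds for the probabilities of a break -/
noncomputable def qq (r : ℕ → ℕ) (τ : ℝ) : ℕ → ℝ
  | 0 => Real.exp (-τ)
  | k + 1 => Real.exp (-τ) * (1 - (1 - qq r τ k) ^ (r k)) ^ 2

theorem qq_pos {r : ℕ → ℕ} (hr : ∀ k, 1 ≤ r k) {τ : ℝ} (hτ : 0 ≤ τ) (k : ℕ) :
    0 < qq r τ k ∧ qq r τ k ≤ 1 := by
  have he : Real.exp (-τ) ≤ 1 := by rw [Real.exp_le_one_iff]; linarith
  induction k with
  | zero => exact ⟨Real.exp_pos _, he⟩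
  | succ k ih =>
    have h1 : 0 ≤ 1 - qq r τ k := by linarith [ih.2]
    have h2 : (1 - qq r τ k) ^ (r k) < 1 := pow_lt_one₀ h1 (by linarith [ih.1])
      (by have := hr k; omega)
    have h3 : 0 ≤ (1 - qq r τ k) ^ (r k) := pow_nonneg h1 _
    have h4 : 0 < (1 - (1 - qq r τ k) ^ (r k)) ^ 2 := by
      have : 0 < 1 - (1 - qq r τ k) ^ (r k) := by linarith
      positivity
    have h5 : (1 - (1 - qq r τ k) ^ (r k)) ^ 2 ≤ 1 := pow_le_one₀ (by linarith) (by linarith)
    refine ⟨mul_pos (Real.exp_pos _) h4, ?_⟩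
    show Real.exp (-τ) * (1 - (1 - qq r τ k) ^ (r k)) ^ 2 ≤ 1
    exact mul_le_one₀ he h4.le h5

theorem qq_large {r : ℕ → ℕ} (hr : ∀ k, 1 ≤ r k)
    (hdiv : ¬ Summable fun k : ℕ => Real.log (r k) / 2 ^ k) {τ : ℝ} (hτ : 0 ≤ τ) (K : ℕ) :
    ∃ k, K ≤ k ∧ Real.exp (-τ) / 4 ≤ qq r τ k := by
  by_contra hno
  push Not at hno
  -- the recursion when the break probabilities stay small
  set a : ℕ → ℝ := fun k => -Real.log (qq r τ k) with ha
  have ha0 : ∀ k, 0 ≤ a k := fun k => by
    have := Real.log_nonpos (qq_pos hr hτ k).1.le (qq_pos hr hτ k).2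
    simp only [ha]; linarith
  have hstep : ∀ k, K ≤ k → a (k + 1) ≤ τ + Real.log 4 + 2 * a k - 2 * Real.log (r k) := by
    intro k hk
    obtain ⟨hp0, hp1⟩ := qq_pos hr hτ k
    set p := qq r τ k with hp
    set n : ℕ := r k with hn
    have hn1 : (1 : ℝ) ≤ n := by exact_mod_cast hr k
    have h1 : (1 - p) ^ n ≤ Real.exp (-(n * p)) := by
      have : 1 - p ≤ Real.exp (-p) := by have := Real.add_one_le_exp (-p); linarith
      calc (1 - p) ^ n ≤ Real.exp (-p) ^ n := pow_le_pow_left₀ (by linarith) this n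
        _ = Real.exp (-(n * p)) := by rw [← Real.exp_nat_mul]; congr 1; ring
    have h2 := hno (k + 1) (by omega)
    have h3 : qq r τ (k + 1) = Real.exp (-τ) * (1 - (1 - p) ^ n) ^ 2 := rfl
    rw [h3] at h2
    have hb0 : 0 ≤ (1 - p) ^ n := pow_nonneg (by linarith) n
    have h4 : 1 - (1 - p) ^ n < 1 / 2 := by
      by_contra hcon
      rw [not_lt] at hcon
      have : (1 / 2 : ℝ) ^ 2 ≤ (1 - (1 - p) ^ n) ^ 2 := pow_le_pow_left₀ (by norm_num) hcon 2
      have := mul_le_mul_of_nonneg_left this (Real.exp_pos (-τ)).le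
      linarith
    have hx0 : 0 < (n : ℝ) * p := by positivity
    have h5 : (n : ℝ) * p < 1 := by
      by_contra hcon
      rw [not_lt] at hcon
      have : Real.exp (-(n * p)) ≤ Real.exp (-1) := Real.exp_le_exp.2 (by linarith)
      have h6 : Real.exp (-1) ≤ 1 / 2 := by
        rw [Real.exp_neg]
        rw [inv_le_comm₀ (Real.exp_pos _) (by norm_num)]
        have := Real.add_one_le_exp (1 : ℝ)
        linarith
      linarith
    have h6 : (n : ℝ) * p / 2 ≤ 1 - (1 - p) ^ n := by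
      have h7 : Real.exp (-(n * p)) ≤ 1 - n * p / 2 := by
        have hc := convexOn_exp.2 (Set.mem_univ (0 : ℝ)) (Set.mem_univ (-1 : ℝ))
          (by linarith : 0 ≤ 1 - n * p) hx0.le (by ring)
        simp only [smul_eq_mul, mul_zero, zero_add, Real.exp_zero, mul_one] at hc
        have h6 : Real.exp (-1) ≤ 1 / 2 := by
          rw [Real.exp_neg]
          rw [inv_le_comm₀ (Real.exp_pos _) (by norm_num)]
          have := Real.add_one_le_exp (1 : ℝ)
          linarith
        have e : (n : ℝ) * p * -1 = -(n * p) := by ring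
        rw [e] at hc
        nlinarith
      linarith
    have h7 : Real.exp (-τ) * ((n : ℝ) * p / 2) ^ 2 ≤ qq r τ (k + 1) := by
      rw [h3]
      exact mul_le_mul_of_nonneg_left (pow_le_pow_left₀ (by positivity) h6 2) (Real.exp_pos _).le
    have h8 := Real.log_le_log (by positivity) h7
    have h9 : Real.log (Real.exp (-τ) * ((n : ℝ) * p / 2) ^ 2) =
        -τ + 2 * (Real.log n + Real.log p - Real.log 2) := by
      rw [Real.log_mul (Real.exp_pos _).ne' (by positivity), Real.log_exp, Real.log_pow,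
        Real.log_div hx0.ne' (by norm_num), Real.log_mul (by positivity) hp0.ne']
      push_cast
      ring
    rw [h9] at h8
    have h10 : Real.log 4 = 2 * Real.log 2 := by
      rw [show (4 : ℝ) = 2 ^ 2 by norm_num, Real.log_pow]; push_cast; ring
    simp only [ha]
    rw [h10]
    linarith
  set C := τ + Real.log 4 with hC
  have hC0 : 0 ≤ C := by have := Real.log_pos (by norm_num : (1 : ℝ) < 4); linarith
  have hind : ∀ j : ℕ, (a (K + j) + C) / 2 ^ (K + j) ≤ (a K + C) / 2 ^ K -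
      ∑ i ∈ Finset.range j, Real.log (r (i + K)) / 2 ^ (i + K) := by
    intro j
    induction j with
    | zero => simp
    | succ j ih =>
      have h1 := hstep (K + j) (by omega)
      have h2 : (a (K + (j + 1)) + C) / 2 ^ (K + (j + 1)) ≤
          (2 * a (K + j) + 2 * C - 2 * Real.log (r (K + j))) / 2 ^ (K + (j + 1)) := by
        apply div_le_div_of_nonneg_right _ (by positivity)
        rw [← add_assoc K j 1]
        linarith
      have h3 : (2 * a (K + j) + 2 * C - 2 * Real.log (r (K + j))) / 2 ^ (K + (j + 1)) =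
          (a (K + j) + C) / 2 ^ (K + j) - Real.log (r (K + j)) / 2 ^ (K + j) := by
        rw [← add_assoc K j 1, pow_succ]
        field_simp
      rw [h3] at h2
      rw [Finset.sum_range_succ, add_comm j K]
      linarith
  have hnn : ∀ k : ℕ, 0 ≤ Real.log (r k) / 2 ^ k := fun k =>
    div_nonneg (Real.log_nonneg (by exact_mod_cast hr k)) (by positivity)
  have hdiv' : ¬ Summable fun i : ℕ => Real.log (r (i + K)) / 2 ^ (i + K) := fun hs =>
    hdiv ((summable_nat_add_iff (f := fun k : ℕ => Real.log (r k) / 2 ^ k) K).1 hs)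
  have htend := (not_summable_iff_tendsto_nat_atTop_of_nonneg
    (f := fun i : ℕ => Real.log (r (i + K)) / 2 ^ (i + K)) (fun i => hnn _)).1 hdiv'
  obtain ⟨j, hj⟩ := (htend.eventually (eventually_gt_atTop ((a K + C) / 2 ^ K))).exists
  have h1 := hind j
  have h2 : 0 ≤ (a (K + j) + C) / 2 ^ (K + j) := by
    have := ha0 (K + j)
    positivity
  linarith

section Prob

variable {P : PairT X → Measure ℕ} [∀ e, IsProbabilityMeasure (P e)] {τ : ℝ} {r : ℕ → ℕ}

theorem prob_Brk (hr : ∀ k, 1 ≤ r k) (hl : ∀ x, (P (pl x)).real {0} = Real.exp (-τ))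
    (hk : ∀ i x, (P (pk i x)).real {0} = Real.exp (-τ * be r i)) (hτ : 0 ≤ τ) (k : ℕ) (h : H)
    (a : ℤ) : qq r τ k ≤ (Measure.infinitePi P).real (Brk k h a (a + (Mm r k : ℕ))) := by
  induction k generalizing h a with
  | zero =>
    refine (prob_base hl h a).trans (measureReal_mono (Brk_mono le_rfl ?_) (measure_ne_top _ _))
    rw [Mm_zero]; norm_num
  | succ k ih =>
    obtain ⟨hp0, hp1⟩ := qq_pos hr hτ k
    have hw : ∀ h a, 1 - (1 - qq r τ k) ^ (r k) ≤
        (Measure.infinitePi P).real (Brk k h a (a + (Mm r (k + 1) : ℕ))) := by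
      intro h a
      have h1 := prob_window (P := P) hp1 ih (r k) h a
      rw [probReal_compl_eq_one_sub ((Brk_det _ _ _ _).meas (Ed_finite _ _ _ _))] at h1
      rw [← Mm_succ] at h1
      linarith
    have hnn : 0 ≤ 1 - (1 - qq r τ k) ^ (r k) := by
      have : (1 - qq r τ k) ^ (r k) ≤ 1 := pow_le_one₀ (by linarith) (by linarith)
      linarith
    have h2 := prob_merge (P := P) hk hτ (fun i => (be_pos hr i).le) hnn hw h a
    refine le_trans (le_of_eq ?_) h2
    have e : be r k * (2 ^ k * ((Mm r (k + 1) : ℕ) : ℝ)) = 1 := by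
      unfold be
      have : (0 : ℝ) < Mm r (k + 1) := by exact_mod_cast Mm_pos hr (k + 1)
      field_simp
    rw [e, mul_one]
    rfl

/-- **All clusters are finite.** -/
theorem no_infinite (hr : ∀ k, 1 ≤ r k) (hrt : Tendsto r atTop atTop)
    (hdiv : ¬ Summable fun k : ℕ => Real.log (r k) / 2 ^ k)
    {G : (PairT X → ℕ) → SimpleGraph X}
    (hG : ∀ ω x z, (G ω).Adj x z ↔ opn ω x z)
    (hl : ∀ x, (P (pl x)).real {0} = Real.exp (-τ))
    (hk : ∀ i x, (P (pk i x)).real {0} = Real.exp (-τ * be r i)) (hτ : 0 ≤ τ)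
    (hz : ∀ x z (hd : ¬ (s(x, z)).IsDiag), ¬ Nb x z → P ⟨s(x, z), hd⟩ {0} = 1) (o : X) :
    Measure.infinitePi P {ω | {y | (G ω).Reachable o y}.Infinite} = 0 := by
  set Q := Measure.infinitePi P with hQ
  obtain ⟨y0, h⟩ := o
  -- pairs of zero weight are closed
  have hnull : Q {ω | ¬ ∀ x z, opn ω x z → Nb x z} = 0 := by
    have hsub : {ω : PairT X → ℕ | ¬ ∀ x z, opn ω x z → Nb x z} ⊆
        ⋃ q : {q : X × X // (¬ (s(q.1, q.2)).IsDiag) ∧ ¬ Nb q.1 q.2},
          {ω | ω ⟨s(q.1.1, q.1.2), q.2.1⟩ ≠ 0} := by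
      intro ω hω
      simp only [Set.mem_ofPred_eq, not_forall] at hω
      obtain ⟨x, z, ⟨h1, h2⟩, h3⟩ := hω
      rw [Set.mem_iUnion]
      exact ⟨⟨(x, z), h1, h3⟩, h2.ne'⟩
    refine measure_mono_null hsub (measure_iUnion_null fun q => ?_)
    rw [hQ, prob_open, hz _ _ _ q.2.2]
    simp
  -- the quantitative bound
  have hbound : ∀ ε : ℝ, 0 < ε → Q {ω | {y | (G ω).Reachable (y0, h) y}.Infinite} ≤
      ENNReal.ofReal (3 * ε) := by
    intro ε hε
    have hδ0 : 0 < Real.exp (-τ) / 4 := by positivity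
    have hδ1 : Real.exp (-τ) / 4 ≤ 1 / 4 := by
      have : Real.exp (-τ) ≤ 1 := by rw [Real.exp_le_one_iff]; linarith
      linarith
    obtain ⟨n, hn⟩ := exists_pow_lt_of_lt_one hε
      (by linarith : 1 - Real.exp (-τ) / 4 < 1)
    obtain ⟨R, hR⟩ := exists_nat_gt ((4 * n + 2) * τ / ε)
    obtain ⟨K, hK⟩ := eventually_atTop.1 (hrt.eventually (eventually_ge_atTop R))
    obtain ⟨k, hkK, hpk⟩ := qq_large hr hdiv hτ K
    obtain ⟨hp0, hp1⟩ := qq_pos hr hτ k
    set M : ℕ := Mm r k with hM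
    set N : ℕ := n * M with hN
    have hfail : ∀ a : ℤ, Q (Brk k h a (a + N))ᶜ ≤ ENNReal.ofReal ε := by
      intro a
      have h1 := prob_window (P := P) hp1 (prob_Brk hr hl hk hτ k) n h a
      have h2 : (1 - qq r τ k) ^ n ≤ (1 - Real.exp (-τ) / 4) ^ n :=
        pow_le_pow_left₀ (by linarith) (by linarith) n
      have h3 : Q.real (Brk k h a (a + N))ᶜ ≤ ε := (h1.trans h2).trans hn.le
      rw [measureReal_def] at h3
      exact (ENNReal.le_ofReal_iff_toReal_le (measure_ne_top _ _) hε.le).2 h3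
    have hout : Q (Out k h y0 N)ᶜ ≤ ENNReal.ofReal ε := by
      refine (prob_Out (P := P) hk hτ (fun i => (be_pos hr i).le) (be_half hr) k h y0 N).trans ?_
      apply ENNReal.ofReal_le_ofReal
      have hM1 : (1 : ℝ) ≤ M := by exact_mod_cast Mm_pos hr k
      have hMpos : (0 : ℝ) < (M : ℝ) := by linarith
      have hrk1 : (1 : ℝ) ≤ r k := by exact_mod_cast hr k
      have hrk : (0 : ℝ) < r k := by linarith
      have e : (2 * (N : ℝ) + 1) * 2 ^ k * (2 * τ * be r k) =
          (2 * (N : ℝ) + 1) * (2 * τ) / ((r k : ℝ) * M) := by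
        have e1 : be r k = 1 / (2 ^ k * ((r k : ℝ) * M)) := by
          unfold be
          rw [Mm_succ, Nat.cast_mul]
        rw [e1]; field_simp
      rw [e, hN, div_le_iff₀ (by positivity)]
      push_cast
      have hKk : (R : ℝ) ≤ r k := by exact_mod_cast hK k hkK
      rw [div_lt_iff₀ hε] at hR
      have h5 : (4 * (n : ℝ) + 2) * τ ≤ r k * ε := by nlinarith
      have hn0 : (0 : ℝ) ≤ n := Nat.cast_nonneg n
      calc (2 * ((n : ℝ) * M) + 1) * (2 * τ) ≤ (2 * ((n : ℝ) * M) + M) * (2 * τ) := by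
            refine mul_le_mul_of_nonneg_right ?_ (by linarith)
            linarith
        _ = ((4 * (n : ℝ) + 2) * τ) * M := by ring
        _ ≤ (r k * ε) * M := mul_le_mul_of_nonneg_right h5 hMpos.le
        _ = ε * (r k * M) := by ring
    have hsub : {ω | {y | (G ω).Reachable (y0, h) y}.Infinite} ⊆
        ({ω | ¬ ∀ x z, opn ω x z → Nb x z} ∪ (Brk k h (y0 - N) (y0 - N + N))ᶜ) ∪
          ((Brk k h y0 (y0 + N))ᶜ ∪ (Out k h y0 N)ᶜ) := by
      intro ω hω
      by_contra hno
      simp only [Set.mem_union, Set.mem_compl_iff, Set.mem_ofPred_eq, not_or, not_not] at hno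
      obtain ⟨⟨h1, h2⟩, h3, h4⟩ := hno
      rw [sub_add_cancel] at h2
      exact hω (finite_cluster (hG ω) h1 h2 h3 h4)
    refine (measure_mono hsub).trans ((measure_union_le _ _).trans ?_)
    refine (add_le_add (measure_union_le _ _) (measure_union_le _ _)).trans ?_
    rw [hnull, zero_add]
    refine (add_le_add (hfail _) (add_le_add (hfail _) hout)).trans ?_
    rw [← ENNReal.ofReal_add hε.le hε.le, ← ENNReal.ofReal_add hε.le (by linarith)]
    apply ENNReal.ofReal_le_ofReal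
    linarith
  by_contra hne
  have hlt : Q {ω | {y | (G ω).Reachable (y0, h) y}.Infinite} ≠ ⊤ := measure_ne_top _ _
  have hpos : 0 < (Q {ω | {y | (G ω).Reachable (y0, h) y}.Infinite}).toReal :=
    ENNReal.toReal_pos hne hlt
  have h1 := hbound ((Q {ω | {y | (G ω).Reachable (y0, h) y}.Infinite}).toReal / 6)
    (by linarith)
  rw [ENNReal.le_ofReal_iff_toReal_le hlt (by linarith)] at h1
  linarith

end Prob

end Pool.Agent.Y451.LI
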