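import Mathlib
import Pool.Agent.Y451.LI.NoPerc

set_option autoImplicit false

open Finset Filter

namespace Pool.Agent.Y451.LI

/-- the inverse of a slowly varying function on the scale of the powers of two -/
theorem exists_inverse {F : ℕ → ℝ} (hF : Monotone F) (h0 : F 0 = 1) (ht : Tendsto F atTop atTop) :
    ∃ h : ℕ → ℕ, ∀ k i, i ≤ h k ↔ F i ≤ 2 ^ k := by
  have hex : ∀ k : ℕ, ∃ m : ℕ, ∀ i, i ≤ m ↔ F i ≤ 2 ^ k := by
    intro k
    have h1 : ∃ i, (2 : ℝ) ^ k < F i := (ht.eventually (eventually_gt_atTop _)).exists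
    classical
    set g := Nat.find h1 with hg
    have h2 : (2 : ℝ) ^ k < F g := Nat.find_spec h1
    have h3 : g ≠ 0 := by
      intro hg0
      rw [hg0, h0] at h2
      have : (1 : ℝ) ≤ 2 ^ k := one_le_pow₀ (by norm_num)
      linarith
    refine ⟨g - 1, fun i => ⟨fun hi => ?_, fun hi => ?_⟩⟩
    · have : i < g := by omega
      exact not_lt.1 (Nat.find_min h1 this)
    · by_contra hno
      have : g ≤ i := by omega
      have := hF this
      linarith
  choose h hh using hex
  exact ⟨h, hh⟩

theorem seq_core {F : ℕ → ℝ} (hF : Monotone F) (h0 : F 0 = 1) (ht : Tendsto F atTop atTop)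
    {c : ℕ} (hc : 1 ≤ c) (hdb : ∀ i, F (2 * i) ≤ 2 ^ c * F i)
    (hdiv : ¬ Summable fun i => 1 / F i) :
    ∃ h : ℕ → ℕ, Tendsto h atTop atTop ∧ (¬ Summable fun k : ℕ => ((h k : ℝ) + 1) / 2 ^ k) ∧
      ∃ C : ℝ, ∀ k, F (∑ t ∈ Finset.range (k + 1), h t + 4 * (k + 1)) ≤ C * 2 ^ k := by
  obtain ⟨h, hh⟩ := exists_inverse hF h0 ht
  have hF1 : ∀ i, 1 ≤ F i := fun i => h0 ▸ hF (Nat.zero_le i)
  have hmono : Monotone h := by
    intro k l hkl
    rw [hh l]
    refine ((hh k (h k)).1 le_rfl).trans ?_
    exact pow_le_pow_right₀ (by norm_num) hkl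
  have hdouble : ∀ k, 2 * h k ≤ h (k + c) := by
    intro k
    rw [hh]
    refine (hdb (h k)).trans ?_
    rw [pow_add, mul_comm]
    exact mul_le_mul_of_nonneg_right ((hh k (h k)).1 le_rfl) (by positivity)
  have hex : ∀ i : ℕ, ∃ k, i ≤ h k := by
    intro i
    obtain ⟨k, hk⟩ := pow_unbounded_of_one_lt (F i) (by norm_num : (1 : ℝ) < 2)
    exact ⟨k, (hh k i).2 hk.le⟩
  have htend : Tendsto h atTop atTop := tendsto_atTop_atTop_of_monotone hmono hex
  refine ⟨h, htend, ?_, ?_⟩
  · -- divergence
    intro hs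
    apply hdiv
    refine summable_of_sum_range_le (c := 2 * ∑' k : ℕ, ((h k : ℝ) + 1) / 2 ^ k)
      (fun i => by have := hF1 i; positivity) fun N => ?_
    obtain ⟨K, hK⟩ := hex N
    have hterm : ∀ i ∈ Finset.range N, 1 / F i ≤
        ∑ k ∈ Finset.range (K + 1), if i ≤ h k then (2 : ℝ) / 2 ^ k else 0 := by
      intro i hi
      rw [Finset.mem_range] at hi
      classical
      have hiK : ∃ k, i ≤ h k := ⟨K, by omega⟩
      set k0 := Nat.find hiK with hk0
      have h1 : i ≤ h k0 := Nat.find_spec hiK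
      have h2 : k0 ≤ K := Nat.find_min' hiK (by omega)
      have h3 : (2 : ℝ) ^ k0 ≤ 2 * F i := by
        rcases Nat.eq_zero_or_pos k0 with hz | hz
        · rw [hz]; have := hF1 i; norm_num; linarith
        · have h4 : ¬ i ≤ h (k0 - 1) := Nat.find_min hiK (by omega)
          rw [hh] at h4
          have h5 : (2 : ℝ) ^ k0 = 2 * 2 ^ (k0 - 1) := by
            rw [← pow_succ']; congr 1; omega
          linarith
      have h6 : 1 / F i ≤ if i ≤ h k0 then (2 : ℝ) / 2 ^ k0 else 0 := by
        rw [if_pos h1, div_le_div_iff₀ (by linarith [hF1 i]) (by positivity)]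
        linarith
      refine h6.trans (Finset.single_le_sum (f := fun k => if i ≤ h k then (2 : ℝ) / 2 ^ k else 0)
        (fun k _ => ?_) (Finset.mem_range.2 (by omega)))
      split_ifs <;> positivity
    refine (Finset.sum_le_sum hterm).trans ?_
    rw [Finset.sum_comm]
    have hin : ∀ k ∈ Finset.range (K + 1),
        (∑ i ∈ Finset.range N, if i ≤ h k then (2 : ℝ) / 2 ^ k else 0) ≤
          2 * (((h k : ℝ) + 1) / 2 ^ k) := by
      intro k _
      rw [← Finset.sum_filter, Finset.sum_const, nsmul_eq_mul]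
      have h7 : ((Finset.range N).filter (fun i => i ≤ h k)).card ≤ h k + 1 := by
        refine (Finset.card_le_card (t := Finset.range (h k + 1)) ?_).trans (by simp)
        intro i hi
        rw [Finset.mem_filter] at hi
        exact Finset.mem_range.2 (by omega)
      have h8 : (((Finset.range N).filter (fun i => i ≤ h k)).card : ℝ) ≤ (h k : ℝ) + 1 := by
        exact_mod_cast h7
      calc _ ≤ ((h k : ℝ) + 1) * (2 / 2 ^ k) := mul_le_mul_of_nonneg_right h8 (by positivity)
        _ = 2 * (((h k : ℝ) + 1) / 2 ^ k) := by ring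
    refine (Finset.sum_le_sum hin).trans ?_
    rw [← Finset.mul_sum]
    exact mul_le_mul_of_nonneg_left (hs.sum_le_tsum _ fun k _ => by positivity) (by norm_num)
  · -- the upper bound
    obtain ⟨k0, hk0⟩ := hex 1
    have hsum : ∀ k, ∑ t ∈ Finset.range (k + 1), h t ≤ 2 * c * h k := by
      intro k
      induction k using Nat.strong_induction_on with
      | _ k ih =>
        rcases lt_or_ge k c with hkc | hkc
        · have h1 : ∑ t ∈ Finset.range (k + 1), h t ≤ ∑ t ∈ Finset.range (k + 1), h k :=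
            Finset.sum_le_sum fun t ht => hmono (by rw [Finset.mem_range] at ht; omega)
          rw [Finset.sum_const, Finset.card_range, smul_eq_mul] at h1
          refine h1.trans (Nat.mul_le_mul_right _ (by omega))
        · obtain ⟨m, rfl⟩ := Nat.exists_eq_add_of_le hkc
          have e : c + m + 1 = (m + 1) + c := by ring
          rw [e, Finset.sum_range_add]
          have h1 := ih m (by omega)
          have h2 : ∑ t ∈ Finset.range c, h (m + 1 + t) ≤ ∑ t ∈ Finset.range c, h (c + m) :=
            Finset.sum_le_sum fun t ht => hmono (by rw [Finset.mem_range] at ht; omega)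
          rw [Finset.sum_const, Finset.card_range, smul_eq_mul] at h2
          have h3 := hdouble m
          rw [add_comm m c] at h3
          have h4 : c * (2 * h m) ≤ c * h (c + m) := Nat.mul_le_mul_left _ h3
          nlinarith
    have hlin : ∀ k, k ≤ k0 + c * h k := by
      have h1 : ∀ s, s + 1 ≤ h (k0 + c * s) := by
        intro s
        induction s with
        | zero => simpa using hk0
        | succ s ih =>
          have h2 := hdouble (k0 + c * s)
          have e : k0 + c * (s + 1) = k0 + c * s + c := by ring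
          rw [e]; omega
      intro k
      rcases lt_or_ge k k0 with hk | hk
      · omega
      · have h2 := h1 ((k - k0) / c)
        have h3 : k0 + c * ((k - k0) / c) ≤ k := by
          have := Nat.mul_div_le (k - k0) c
          omega
        have h4 := hmono h3
        have h5 : (k - k0) < c * ((k - k0) / c + 1) := Nat.lt_mul_div_succ _ (by omega)
        have h6 : c * ((k - k0) / c + 1) ≤ c * h k := Nat.mul_le_mul_left _ (h2.trans h4)
        omega
    obtain ⟨w, hw⟩ : ∃ w : ℕ, 6 * c + 4 * (k0 + 1) ≤ 2 ^ w :=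
      ⟨6 * c + 4 * (k0 + 1), Nat.lt_two_pow_self.le⟩
    have hpw : ∀ w i, F (2 ^ w * i) ≤ (2 ^ c) ^ w * F i := by
      intro w
      induction w with
      | zero => intro i; simp
      | succ w ih =>
        intro i
        have e : 2 ^ (w + 1) * i = 2 * (2 ^ w * i) := by ring
        rw [e]
        refine (hdb _).trans ?_
        rw [pow_succ']
        calc (2 : ℝ) ^ c * F (2 ^ w * i) ≤ 2 ^ c * ((2 ^ c) ^ w * F i) :=
              mul_le_mul_of_nonneg_left (ih i) (by positivity)
          _ = _ := by ring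
    refine ⟨(2 ^ c) ^ w * F 1, fun k => ?_⟩
    set g := max (h k) 1 with hg
    have hg1 : 1 ≤ g := le_max_right _ _
    have hgh : h k ≤ g := le_max_left _ _
    have h1 : ∑ t ∈ Finset.range (k + 1), h t + 4 * (k + 1) ≤ 2 ^ w * g := by
      have h2 := hsum k
      have h3 := hlin k
      calc ∑ t ∈ Finset.range (k + 1), h t + 4 * (k + 1)
          ≤ 2 * c * h k + 4 * (k0 + c * h k + 1) := by omega
        _ = (6 * c) * h k + 4 * (k0 + 1) := by ring
        _ ≤ (6 * c) * g + (4 * (k0 + 1)) * g := by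
            have h4 : (6 * c) * h k ≤ (6 * c) * g := Nat.mul_le_mul_left _ hgh
            have h5 : (4 * (k0 + 1)) * 1 ≤ (4 * (k0 + 1)) * g := Nat.mul_le_mul_left _ hg1
            omega
        _ = (6 * c + 4 * (k0 + 1)) * g := by ring
        _ ≤ 2 ^ w * g := Nat.mul_le_mul_right _ hw
    have h2 : F g ≤ F 1 * 2 ^ k := by
      have h3 : (1 : ℝ) ≤ 2 ^ k := one_le_pow₀ (by norm_num)
      have h4 := hF1 1
      rcases le_total (h k) 1 with hle | hle
      · rw [hg, max_eq_right hle]; nlinarith
      · rw [hg, max_eq_left hle]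
        have h5 := (hh k (h k)).1 le_rfl
        nlinarith
    calc F (∑ t ∈ Finset.range (k + 1), h t + 4 * (k + 1)) ≤ F (2 ^ w * g) := hF h1
      _ ≤ (2 ^ c) ^ w * F g := hpw w g
      _ ≤ (2 ^ c) ^ w * (F 1 * 2 ^ k) := mul_le_mul_of_nonneg_left h2 (by positivity)
      _ = _ := by ring

/-- the ratios of the windows for a given isoperimetric function -/
theorem exists_ratios {f : ℕ → ℝ} (hf : Monotone f) (hpos : ∀ n, 0 < f n)
    (ht : Tendsto f atTop atTop) (hsq : ∃ C : ℝ, ∀ n, f (n ^ 2) ≤ C * f n)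
    (hdiv : ¬ Summable fun n : ℕ => 1 / ((n : ℝ) * f n)) :
    ∃ r : ℕ → ℕ, (∀ k, 1 ≤ r k) ∧ Tendsto r atTop atTop ∧
      (¬ Summable fun k : ℕ => Real.log (r k) / 2 ^ k) ∧
      ∃ C : ℝ, 0 < C ∧ ∀ k, f (8 ^ (k + 1) * Mm r (k + 1)) ≤ C * 2 ^ k := by
  obtain ⟨C0, hC0⟩ := hsq
  obtain ⟨c, hc⟩ := pow_unbounded_of_one_lt C0 (by norm_num : (1 : ℝ) < 2)
  have hf1 := hpos 1
  set F : ℕ → ℝ := fun i => f (2 ^ i) / f 1 with hF
  have hFm : Monotone F := fun i j hij =>
    div_le_div_of_nonneg_right (hf (Nat.pow_le_pow_right (by norm_num) hij)) hf1.le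
  have hF0 : F 0 = 1 := by simp only [hF, pow_zero]; exact div_self hf1.ne'
  have hFt : Tendsto F atTop atTop :=
    (ht.comp (tendsto_pow_atTop_atTop_of_one_lt (by norm_num : 1 < 2))).atTop_div_const hf1
  have hFd : ∀ i, F (2 * i) ≤ 2 ^ (c + 1) * F i := by
    intro i
    simp only [hF]
    rw [← mul_div_assoc]
    apply div_le_div_of_nonneg_right _ hf1.le
    have e : 2 ^ (2 * i) = (2 ^ i) ^ 2 := by rw [← pow_mul, mul_comm]
    rw [e]
    refine (hC0 _).trans (mul_le_mul_of_nonneg_right ?_ (hpos _).le)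
    refine hc.le.trans (pow_le_pow_right₀ (by norm_num) (by omega))
  have hFs : ¬ Summable fun i => 1 / F i := by
    intro hs
    apply hdiv
    have h1 := summable_condensed_iff_of_nonneg (f := fun n : ℕ => 1 / ((n : ℝ) * f n))
      (fun n => by have := hpos n; positivity) (fun m n hm hmn => by
        have h2 : (0 : ℝ) < m := by exact_mod_cast hm
        have h3 : (m : ℝ) ≤ n := by exact_mod_cast hmn
        exact one_div_le_one_div_of_le (mul_pos h2 (hpos m))
          (mul_le_mul h3 (hf hmn) (hpos m).le (by linarith)))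
    rw [← h1]
    refine (hs.mul_left (f 1)⁻¹).congr fun k => ?_
    have h4 := hpos (2 ^ k)
    simp only [hF]
    push_cast
    field_simp
  obtain ⟨h, h1, h2, C, h3⟩ := seq_core hFm hF0 hFt (by omega : 1 ≤ c + 1) hFd hFs
  refine ⟨fun k => 2 ^ (h k + 1), fun k => Nat.one_le_two_pow, ?_, ?_, ?_⟩
  · exact (tendsto_pow_atTop_atTop_of_one_lt (by norm_num : 1 < 2)).comp
      ((tendsto_add_atTop_nat 1).comp h1)
  · intro hs
    apply h2
    have hlog2 : 0 < Real.log 2 := Real.log_pos (by norm_num)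
    refine (hs.mul_left (Real.log 2)⁻¹).congr fun k => ?_
    push_cast
    rw [Real.log_pow]
    push_cast
    field_simp
  · have hM : ∀ k, 8 ^ (k + 1) * Mm (fun k => 2 ^ (h k + 1)) (k + 1) =
        2 ^ (∑ t ∈ Finset.range (k + 1), h t + 4 * (k + 1)) := by
      intro k
      unfold Mm
      rw [Finset.prod_pow_eq_pow_sum, Finset.sum_add_distrib, Finset.sum_const, Finset.card_range,
        smul_eq_mul, mul_one, show (8 : ℕ) = 2 ^ 3 by norm_num, ← pow_mul, ← pow_add]
      congr 1; ring
    refine ⟨max C 1 * f 1, by positivity, fun k => ?_⟩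
    have h4 := h3 k
    simp only [hF] at h4
    rw [div_le_iff₀ hf1] at h4
    rw [hM k]
    refine h4.trans ?_
    have h5 : C ≤ max C 1 := le_max_left _ _
    have h6 : C * (2 ^ k * f 1) ≤ max C 1 * (2 ^ k * f 1) :=
      mul_le_mul_of_nonneg_right h5 (by positivity)
    linarith

end Pool.Agent.Y451.LI
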